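import Pool.Agent.H47.ALLH.Stmts
import Pool.Agent.H85.STAR.Zero

set_option autoImplicit false

namespace Pool.ALLH

open Finset

theorem pade_thm10 : S_PADE := by
  intro g M n z0 T x m Nt Dt W1 W2 U V hg hz0 hz0g hM hMg hn hA hT hNU hDU hW1 hW2
  have hg1 : 1 ≤ g := hg.one_lt.le
  have hcop : Nat.Coprime z0 g := by
    refine ((Nat.Prime.coprime_iff_not_dvd hg).2 fun h => ?_).symm
    exact absurd (Nat.le_of_dvd hz0 h) (by omega)
  have hMn : M * n ≥ 2 := by nlinarith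
  have e1 : M * (4 * n) = 4 * (M * n) := by ring
  have hKI : 3 * (M * n) - (M * n + 2 * M) = 2 * (M * n) - 2 * M := by omega
  have hMM : 2 * M ≤ M * n := by nlinarith
  have h := H85STAR.core_thm T g z0 M (4 * n) (3 * (M * n)) (M * n + 2 * M) Nt Dt (W2 : ℤ) (W1 : ℤ)
    m x hA.pr (by omega) hz0g.le hcop hM hMg (by rw [e1]; omega) (by rw [e1]; omega) (by omega)
    hA.N0 hA.D0 hA.ne (by have := hA.W20; omega) (by have := hA.W10; omega)
    (fun t ht => by
      obtain ⟨t1, t2, t3⟩ := hT t ht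
      refine ⟨fun hd => ?_, hA.tD t ht, fun hd => hA.t1 t ht (by exact_mod_cast hd), t2,
        hA.cN t ht, ?_, ?_, ?_⟩
      · exact t1 ((Nat.prime_dvd_prime_iff_eq (hA.pr t ht) hg).1 hd)
      · have := hA.cW t ht
        have e : (W2 : ℤ) - W1 = -((W1 : ℤ) - W2) := by ring
        rw [e]
        exact (dvd_neg).2 this
      · have := hA.rel t ht
        have e : (W2 : ℤ) ^ g * (Dt : ℤ) ^ z0 - (W1 : ℤ) ^ g * (Nt : ℤ) ^ z0 =
            -((Nt : ℤ) ^ z0 * (W1 : ℤ) ^ g - (Dt : ℤ) ^ z0 * (W2 : ℤ) ^ g) := by ring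
        rw [e]
        exact (dvd_neg).2 this
      · rw [hKI]
        refine t3.trans (Nat.mul_le_mul_left _ ?_)
        omega)
  have hgR : (1 : ℝ) ≤ g := by exact_mod_cast hg1
  have hMR : (1 : ℝ) ≤ M := by exact_mod_cast hM
  have hnR : (2 : ℝ) ≤ n := by exact_mod_cast hn
  have hMnR : (2 : ℝ) ≤ (M : ℝ) * n := by exact_mod_cast hMn
  have hlg : 0 ≤ Real.log g := Real.log_nonneg hgR
  -- logarithm of the left side
  have hpos : ∀ t ∈ T, (0 : ℝ) < (t : ℝ) ^ x t := fun t ht => by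
    have := (hA.pr t ht).pos
    positivity
  have hL : ∑ t ∈ T, (x t : ℝ) * Real.log t = Real.log (∏ t ∈ T, (t : ℝ) ^ x t) := by
    rw [Real.log_prod (fun t ht => (hpos t ht).ne')]
    exact Finset.sum_congr rfl fun t _ => (Real.log_pow _ _).symm
  have hP : (0 : ℝ) < ∏ t ∈ T, (t : ℝ) ^ x t := Finset.prod_pos hpos
  have hN0 : (0 : ℝ) < Nt := by exact_mod_cast hA.N0
  have hD0 : (0 : ℝ) < Dt := by exact_mod_cast hA.D0
  have hW10 : (0 : ℝ) < W1 := by exact_mod_cast hA.W10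
  have hW20 : (0 : ℝ) < W2 := by exact_mod_cast hA.W20
  have hmax1 : (0 : ℝ) < max (Nt : ℝ) (Dt : ℝ) := lt_max_of_lt_left hN0
  have hmax2 : (0 : ℝ) < max |((W2 : ℤ) : ℝ)| |((W1 : ℤ) : ℝ)| := by
    refine lt_max_of_lt_left ?_
    push_cast
    positivity
  have h1 := Real.log_le_log hP h
  rw [← hL] at h1
  refine h1.trans ?_
  have hc : (0 : ℝ) < (M * ((4 * n : ℕ) + 1) : ℝ) := by positivity
  have hg3 : (0 : ℝ) < (g : ℝ) ^ (3 * (M * n)) * 3 ^ (4 * n + M) := by positivity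
  have hlog : ∀ a b c : ℝ, 0 < a → 0 < b → 0 < c →
      Real.log ((a * ((g : ℝ) ^ (3 * (M * n)) * 3 ^ (4 * n + M))) ^ 4 * b ^ (4 * n) * c ^ M) =
        4 * (Real.log a + (3 * (M * n) * Real.log g + (4 * n + M) * Real.log 3)) +
          4 * n * Real.log b + M * Real.log c := by
    intro a b c ha hb hc
    rw [Real.log_mul (by positivity) (by positivity), Real.log_mul (by positivity) (by positivity),
      Real.log_pow, Real.log_pow, Real.log_pow, Real.log_mul ha.ne' hg3.ne',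
      Real.log_mul (by positivity) (by positivity), Real.log_pow, Real.log_pow]
    push_cast
    ring
  rw [hlog _ _ _ hc hmax1 hmax2]
  have hU : Real.log (max (Nt : ℝ) (Dt : ℝ)) ≤ U :=
    (Real.log_le_iff_le_exp hmax1).2 (max_le hNU hDU)
  have hV : Real.log (max |((W2 : ℤ) : ℝ)| |((W1 : ℤ) : ℝ)|) ≤ V := by
    refine (Real.log_le_iff_le_exp hmax2).2 (max_le ?_ ?_)
    · push_cast
      rwa [abs_of_pos hW20]
    · push_cast
      rwa [abs_of_pos hW10]
  have h3 : Real.log 3 ≤ 1.0987 := by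
    have := Real.log_three_lt_d9 
    linarith
  have h6 : Real.log (6 * g) = Real.log 6 + Real.log g := by
    rw [Real.log_mul (by norm_num) (by positivity)]
  have h6' : (1.79 : ℝ) ≤ Real.log 6 := by
    have e : (6 : ℝ) = 2 * 3 := by norm_num
    rw [e, Real.log_mul (by norm_num) (by norm_num)]
    have := Real.log_two_gt_d9
    have := Real.log_three_gt_d9
    linarith
  have hlogc : Real.log (M * ((4 * n : ℕ) + 1) : ℝ) ≤ 2 + (M : ℝ) * n := by
    have e : (M * ((4 * n : ℕ) + 1) : ℝ) ≤ 5 * ((M : ℝ) * n) := by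
      push_cast
      nlinarith
    refine (Real.log_le_log hc e).trans ?_
    rw [Real.log_mul (by norm_num) (by positivity)]
    have h5 : Real.log 5 ≤ 2 := by
      rw [Real.log_le_iff_le_exp (by norm_num)]
      have : (5 : ℝ) ≤ (2.7 : ℝ) ^ 2 := by norm_num
      have h2 : Real.exp 2 = Real.exp 1 ^ 2 := by rw [← Real.exp_nat_mul]; norm_num
      rw [h2]
      refine this.trans ?_
      have := Real.exp_one_gt_d9
      gcongr
      linarith
    have h7 := Real.log_le_sub_one_of_pos (show (0 : ℝ) < (M : ℝ) * n by positivity)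
    linarith
  rw [h6]
  push_cast
  have a1 : (4 * (n : ℝ)) * Real.log (max (Nt : ℝ) (Dt : ℝ)) ≤ 4 * n * U := by
    gcongr
  have a2 : (M : ℝ) * Real.log (max |((W2 : ℤ) : ℝ)| |((W1 : ℤ) : ℝ)|) ≤ M * V := by
    gcongr
  have a3 : (4 * (n : ℝ) + M) * Real.log 3 ≤ 5 * ((M : ℝ) * n) * 1.0987 := by
    have : (4 * (n : ℝ) + M) ≤ 5 * ((M : ℝ) * n) := by nlinarith
    have h30 : 0 ≤ Real.log 3 := Real.log_nonneg (by norm_num)
    calc (4 * (n : ℝ) + M) * Real.log 3 ≤ 5 * ((M : ℝ) * n) * Real.log 3 := by gcongr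
      _ ≤ 5 * ((M : ℝ) * n) * 1.0987 := by gcongr
  push_cast at a2 hlogc
  have a4 : 0 ≤ (M : ℝ) * n * Real.log g := by positivity
  have a5 : (M : ℝ) * n * 1.79 ≤ (M : ℝ) * n * Real.log 6 := by gcongr
  linarith
end Pool.ALLH
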