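import Pool.Agent.H47.ALLH.Stmts

set_option autoImplicit false

namespace Pool.ALLH

open Finset

theorem zer_thm10 : S_ZER := by
  intro g T x m Nt Dt W1 W2 V hg hA hT hne h1 h2
  have hg0 : 0 < g := hg.pos
  have key : ∀ t ∈ T, ((t : ℤ) ^ x t) ∣ (W1 : ℤ) - W2 := by
    intro t ht
    have hp : Prime (t : ℤ) := Nat.prime_iff_prime_int.1 (hA.pr t ht)
    have hr := hA.rel t ht
    rw [pow_zero, pow_zero, one_mul, one_mul] at hr
    have hd := hA.cW t ht
    have hs : ¬ (t : ℤ) ∣ ∑ i ∈ range g, (W1 : ℤ) ^ i * (W2 : ℤ) ^ (g - 1 - i) := by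
      rw [dvd_geom_sum₂_iff_of_dvd_sub hd]
      intro h
      rcases hp.dvd_or_dvd h with h | h
      · have h3 : t ∣ g := by exact_mod_cast h
        exact hT t ht ((Nat.prime_dvd_prime_iff_eq (hA.pr t ht) hg).1 h3)
      · have h3 := hp.dvd_of_dvd_pow h
        exact hA.t2 t ht (by exact_mod_cast h3)
    rw [← geom_sum₂_mul] at hr
    have hc : IsCoprime ((t : ℤ) ^ x t)
        (∑ i ∈ range g, (W1 : ℤ) ^ i * (W2 : ℤ) ^ (g - 1 - i)) :=
      IsCoprime.pow_left ((Prime.coprime_iff_not_dvd hp).2 hs)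
    exact hc.dvd_of_dvd_mul_left hr
  have hprod : ((∏ t ∈ T, t ^ x t : ℕ) : ℤ) ∣ (W1 : ℤ) - W2 := by
    push_cast
    refine Finset.prod_dvd_of_coprime ?_ key
    intro s hs t ht hst
    have : Nat.Coprime (s ^ x s) (t ^ x t) :=
      Nat.Coprime.pow _ _ ((Nat.coprime_primes (hA.pr s hs) (hA.pr t ht)).2 hst)
    have h3 := Nat.isCoprime_iff_coprime.2 this
    push_cast at h3
    exact h3
  have hW : (W1 : ℤ) - W2 ≠ 0 := by
    intro h
    exact hne (by omega)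
  have hle : (∏ t ∈ T, t ^ x t : ℕ) ≤ max W1 W2 := by
    have h3 := Int.le_of_dvd (abs_pos.2 hW) ((dvd_abs _ _).2 hprod)
    have h4 : |(W1 : ℤ) - W2| ≤ ((max W1 W2 : ℕ) : ℤ) := by
      rw [abs_le]
      have a1 := le_max_left W1 W2
      have a2 := le_max_right W1 W2
      constructor <;> omega
    exact_mod_cast h3.trans h4
  have hpos : ∀ t ∈ T, (0 : ℝ) < (t : ℝ) ^ x t := fun t ht => by
    have := (hA.pr t ht).pos
    positivity
  have hL : ∑ t ∈ T, (x t : ℝ) * Real.log t = Real.log (∏ t ∈ T, (t : ℝ) ^ x t) := by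
    rw [Real.log_prod (fun t ht => (hpos t ht).ne')]
    exact Finset.sum_congr rfl fun t _ => (Real.log_pow _ _).symm
  rw [hL, Real.log_le_iff_le_exp (Finset.prod_pos hpos)]
  have h5 : (∏ t ∈ T, (t : ℝ) ^ x t) ≤ ((max W1 W2 : ℕ) : ℝ) := by exact_mod_cast hle
  refine h5.trans ?_
  push_cast
  exact max_le h1 h2

end Pool.ALLH
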